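import Pool.Agent.H13.CA.Com

/-!
# CH-ALL, MINP: minimal primes over a stable ideal are stable under an ample subgroup

A noetherian ring has finitely many minimal primes over `I`; an automorphism `φ` with `φ I = I` permutes them;
`N` = order of the symmetric group kills all permutations. For `U` ample with exponent `N₀` the subgroup `U'` of the
`a ∈ U` which fix every minimal prime contains `a ^ N`, and `red (a ^ N).f = iter (red a.f) N` (`a.g` acts trivially
on the residue field), so `U'` is ample with exponent `N₀ * N`.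
-/

set_option autoImplicit false

namespace Pool.Agent.H49.CA

open PowerSeries Pool.Agent.H13.CA


theorem mp_map {R : Type*} [CommRing R] (I : Ideal R) (φ : R ≃+* R)
    (h : I.map (φ : R →+* R) = I) (Q : Ideal R) (hQ : Q ∈ I.minimalPrimes) :
    Q.map (φ : R →+* R) ∈ I.minimalPrimes := by
  have hQp : Q.IsPrime := hQ.1.1
  have hQI : I ≤ Q := hQ.1.2
  have hp : (Q.map (φ : R →+* R)).IsPrime := Ideal.map_isPrime_of_equiv φ
  refine ⟨⟨hp, ?_⟩, ?_⟩
  · calc I = I.map (φ : R →+* R) := h.symm
      _ ≤ Q.map (φ : R →+* R) := Ideal.map_mono hQI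
  · rintro J ⟨hJp, hIJ⟩ hJQ
    have h1 : (J.comap (φ : R →+* R)).IsPrime := Ideal.comap_isPrime _ _
    have h2 : I ≤ J.comap (φ : R →+* R) := by
      rw [← Ideal.map_le_iff_le_comap, h]
      exact hIJ
    have h3 : J.comap (φ : R →+* R) ≤ Q := by
      intro x hx
      have h4 : φ x ∈ Q.map (φ : R →+* R) := hJQ hx
      obtain ⟨y, hy, hyx⟩ := (Ideal.mem_map_iff_of_surjective (φ : R →+* R) φ.surjective).1 h4
      have : y = x := φ.injective hyx
      exact this ▸ hy
    have h5 : Q ≤ J.comap (φ : R →+* R) := hQ.2 ⟨h1, h2⟩ h3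
    exact Ideal.map_le_iff_le_comap.2 h5

theorem minp {R : Type*} [CommRing R] [IsNoetherianRing R] (I : Ideal R) :
    ∃ N : ℕ, 1 ≤ N ∧ ∀ φ : R ≃+* R, I.map (φ : R →+* R) = I → ∀ Q ∈ I.minimalPrimes,
      Q.map (((φ ^ N : R ≃+* R)) : R →+* R) = Q := by
  classical
  have : Finite I.minimalPrimes := (I.finite_minimalPrimes_of_isNoetherianRing R).to_subtype
  have : Fintype I.minimalPrimes := Fintype.ofFinite _
  refine ⟨Fintype.card (Equiv.Perm I.minimalPrimes), Fintype.card_pos, ?_⟩
  intro φ hφ Q hQ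
  let g : I.minimalPrimes → I.minimalPrimes := fun P => ⟨P.1.map (φ : R →+* R), mp_map I φ hφ P.1 P.2⟩
  have hg : Function.Injective g := by
    intro P P' h
    have h1 : P.1.map (φ : R →+* R) = P'.1.map (φ : R →+* R) := congrArg Subtype.val h
    apply Subtype.ext
    have h2 : ∀ J : Ideal R, (J.map (φ : R →+* R)).comap (φ : R →+* R) = J := fun J =>
      Ideal.comap_map_of_bijective (φ : R →+* R) φ.bijective
    rw [← h2 P.1, h1, h2]
  let σ : Equiv.Perm I.minimalPrimes := Equiv.ofBijective g (Finite.injective_iff_bijective.1 hg)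
  have hσ : ∀ (n : ℕ) (P : I.minimalPrimes), ((σ ^ n) P).1 = P.1.map (((φ ^ n : R ≃+* R)) : R →+* R) := by
    intro n
    induction n with
    | zero =>
      intro P
      rw [pow_zero, pow_zero]
      exact (Ideal.map_id P.1).symm
    | succ n ih =>
      intro P
      rw [pow_succ', pow_succ', Equiv.Perm.mul_apply]
      have e : (σ ((σ ^ n) P)).1 = ((σ ^ n) P).1.map (φ : R →+* R) := rfl
      rw [e, ih P, Ideal.map_map]
      rfl
  have h1 := hσ (Fintype.card (Equiv.Perm I.minimalPrimes)) ⟨Q, hQ⟩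
  rw [pow_card_eq_one] at h1
  exact h1.symm



theorem cc_alg {k : Type*} [Field k] {σ : Type*} (g : MvPowerSeries σ k ≃ₐ[k] MvPowerSeries σ k)
    (x : MvPowerSeries σ k) : MvPowerSeries.constantCoeff (g x) = MvPowerSeries.constantCoeff x := by
  have h1 : ¬ IsUnit (x - MvPowerSeries.C (MvPowerSeries.constantCoeff x)) := by
    rw [MvPowerSeries.isUnit_iff_constantCoeff, map_sub, MvPowerSeries.constantCoeff_C, sub_self]
    exact not_isUnit_zero
  have h2 : ¬ IsUnit (g (x - MvPowerSeries.C (MvPowerSeries.constantCoeff x))) := by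
    intro h
    apply h1
    have h3 := h.map g.symm
    rwa [AlgEquiv.symm_apply_apply] at h3
  rw [MvPowerSeries.isUnit_iff_constantCoeff, map_sub, map_sub] at h2
  have e : g (MvPowerSeries.C (MvPowerSeries.constantCoeff x)) = MvPowerSeries.C (MvPowerSeries.constantCoeff x) :=
    g.commutes (MvPowerSeries.constantCoeff x)
  rw [e, MvPowerSeries.constantCoeff_C] at h2
  have h4 := not_not.1 (fun h => h2 (isUnit_iff_ne_zero.2 h))
  exact sub_eq_zero.1 h4

theorem red_mul {k : Type*} [Field k] {σ : Type*} {F : FormalGroup (MvPowerSeries σ k)} (a b : Lift k F) :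
    red (a * b).f = PowerSeries.subst (red a.f) (red b.f) := by
  have ha : PowerSeries.HasSubst (a.f : PowerSeries (MvPowerSeries σ k)) :=
    PowerSeries.HasSubst.of_constantCoeff_zero' a.hom.1
  have e1 : red (PowerSeries.map (a.g : MvPowerSeries σ k →+* MvPowerSeries σ k) b.f) = red b.f := by
    ext n
    unfold red
    rw [PowerSeries.coeff_map, PowerSeries.coeff_map, PowerSeries.coeff_map]
    exact cc_alg a.g _
  rw [Lift.mul_f]
  have h := PowerSeries.map_subst ha (h := MvPowerSeries.constantCoeff (σ := σ) (R := k))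
    (PowerSeries.map (a.g : MvPowerSeries σ k →+* MvPowerSeries σ k) b.f)
  have e2 : red (PowerSeries.subst a.f (PowerSeries.map (a.g : MvPowerSeries σ k →+* MvPowerSeries σ k) b.f)) =
      PowerSeries.subst (red a.f) (red (PowerSeries.map (a.g : MvPowerSeries σ k →+* MvPowerSeries σ k) b.f)) := h
  rw [e2, e1]


theorem iter_cc {k : Type*} [CommRing k] {θ : PowerSeries k} (h : PowerSeries.constantCoeff θ = 0) (n : ℕ) :
    PowerSeries.constantCoeff (iter θ n) = 0 := by
  induction n with
  | zero => exact PowerSeries.constantCoeff_X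
  | succ n ih => exact PowerSeries.constantCoeff_subst_eq_zero ih _ h

theorem iter_add {k : Type*} [CommRing k] {θ : PowerSeries k} (h : PowerSeries.constantCoeff θ = 0) (m n : ℕ) :
    iter θ (m + n) = PowerSeries.subst (iter θ m) (iter θ n) := by
  induction n with
  | zero =>
    have hs : PowerSeries.HasSubst (iter θ m) := PowerSeries.HasSubst.of_constantCoeff_zero' (iter_cc h m)
    exact (PowerSeries.subst_X hs).symm
  | succ n ih =>
    have hm : PowerSeries.HasSubst (iter θ m) := PowerSeries.HasSubst.of_constantCoeff_zero' (iter_cc h m)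
    have hn : PowerSeries.HasSubst (iter θ n) := PowerSeries.HasSubst.of_constantCoeff_zero' (iter_cc h n)
    calc iter θ (m + (n + 1)) = PowerSeries.subst (iter θ (m + n)) θ := rfl
      _ = PowerSeries.subst (PowerSeries.subst (iter θ m) (iter θ n)) θ := by rw [ih]
      _ = PowerSeries.subst (iter θ m) (PowerSeries.subst (iter θ n) θ) :=
        (PowerSeries.subst_comp_subst_apply hn hm θ).symm

theorem iter_iter {k : Type*} [CommRing k] {θ : PowerSeries k} (h : PowerSeries.constantCoeff θ = 0) (m n : ℕ) :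
    iter (iter θ m) n = iter θ (m * n) := by
  induction n with
  | zero => rfl
  | succ n ih =>
    calc iter (iter θ m) (n + 1) = PowerSeries.subst (iter (iter θ m) n) (iter θ m) := rfl
      _ = PowerSeries.subst (iter θ (m * n)) (iter θ m) := by rw [ih]
      _ = iter θ (m * n + m) := (iter_add h (m * n) m).symm
      _ = iter θ (m * (n + 1)) := by rw [Nat.mul_succ]

theorem red_pow {k : Type*} [Field k] {σ : Type*} {F : FormalGroup (MvPowerSeries σ k)} (a : Lift k F) (n : ℕ) :
    red (a ^ n).f = iter (red a.f) n := by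
  induction n with
  | zero =>
    rw [pow_zero, Lift.one_f]
    exact PowerSeries.map_X _
  | succ n ih =>
    rw [pow_succ, red_mul, ih]
    rfl

theorem g_pow {k : Type*} [Field k] {A : Type*} [CommRing A] [Algebra k A] {F : FormalGroup A} (a : Lift k F) (n : ℕ) :
    (a ^ n).g = a.g ^ n := by
  induction n with
  | zero => rw [pow_zero, pow_zero, Lift.one_g]
  | succ n ih => rw [pow_succ, pow_succ, Lift.mul_g, ih]

theorem map_mul' {k : Type*} [Field k] {A : Type*} [CommRing A] [Algebra k A] (a b : A ≃ₐ[k] A) (Q : Ideal A) :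
    Q.map ((a * b : A ≃ₐ[k] A) : A →+* A) = (Q.map (b : A →+* A)).map (a : A →+* A) := by
  rw [Ideal.map_map]
  rfl

theorem map_one' {k : Type*} [Field k] {A : Type*} [CommRing A] [Algebra k A] (Q : Ideal A) :
    Q.map ((1 : A ≃ₐ[k] A) : A →+* A) = Q := Ideal.map_id Q

theorem inv_g {k : Type*} [Field k] {A : Type*} [CommRing A] [Algebra k A] {F : FormalGroup A} (a : Lift k F) :
    (a⁻¹).g = (a.g)⁻¹ := by
  apply eq_inv_of_mul_eq_one_left
  rw [← Lift.mul_g, inv_mul_cancel, Lift.one_g]

theorem map_eq_of_le {k : Type*} [Field k] {A : Type*} [CommRing A] [Algebra k A] {F : FormalGroup A}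
    (U : Subgroup (Lift k F)) (I : Ideal A) (h : ∀ a ∈ U, I.map (a.g : A →+* A) ≤ I) (a : Lift k F)
    (ha : a ∈ U) : I.map (a.g : A →+* A) = I := by
  apply le_antisymm (h a ha)
  have h1 : I.map ((a⁻¹).g : A →+* A) ≤ I := h _ (U.inv_mem ha)
  have h2 := Ideal.map_mono (f := (a.g : A →+* A)) h1
  rw [inv_g, ← map_mul', mul_inv_cancel, map_one'] at h2
  exact h2

theorem ample_minp {k : Type*} [Field k] {m : ℕ} {F : FormalGroup (MvPowerSeries (Fin m) k)} (U : Subgroup (Lift k F)) (hU : Ample U)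
    (I : Ideal (MvPowerSeries (Fin m) k)) (h : ∀ a ∈ U, I.map (a.g : MvPowerSeries (Fin m) k →+* MvPowerSeries (Fin m) k) ≤ I) :
    ∃ U' : Subgroup (Lift k F), U' ≤ U ∧ Ample U' ∧ ∀ a ∈ U', ∀ Q ∈ I.minimalPrimes,
      Q.map (a.g : MvPowerSeries (Fin m) k →+* MvPowerSeries (Fin m) k) ≤ Q := by
  have hI := map_eq_of_le U I h
  obtain ⟨M, hM1, hM⟩ := minp I
  let U' : Subgroup (Lift k F) :=
    { carrier := {a | a ∈ U ∧ ∀ Q ∈ I.minimalPrimes, Q.map (a.g : MvPowerSeries (Fin m) k →+* MvPowerSeries (Fin m) k) = Q}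
      mul_mem' := by
        rintro a b ⟨ha, ha'⟩ ⟨hb, hb'⟩
        refine ⟨U.mul_mem ha hb, fun Q hQ => ?_⟩
        rw [Lift.mul_g, map_mul', hb' Q hQ, ha' Q hQ]
      one_mem' := by
        refine ⟨U.one_mem, fun Q _ => ?_⟩
        rw [Lift.one_g, map_one']
      inv_mem' := by
        rintro a ⟨ha, ha'⟩
        refine ⟨U.inv_mem ha, fun Q hQ => ?_⟩
        have h1 := ha' Q hQ
        calc Q.map ((a⁻¹).g : MvPowerSeries (Fin m) k →+* MvPowerSeries (Fin m) k)
            = (Q.map (a.g : MvPowerSeries (Fin m) k →+* MvPowerSeries (Fin m) k)).map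
              ((a⁻¹).g : MvPowerSeries (Fin m) k →+* MvPowerSeries (Fin m) k) := by rw [h1]
          _ = Q := by rw [inv_g, ← map_mul', inv_mul_cancel, map_one'] }
  refine ⟨U', fun a ha => ha.1, ?_, fun a ha Q hQ => (ha.2 Q hQ).le⟩
  obtain ⟨N, hN1, hN⟩ := hU
  refine ⟨N * M, Nat.mul_pos hN1 hM1, ?_⟩
  intro θ hθ hθu
  obtain ⟨a, haU, ha⟩ := hN θ hθ hθu
  refine ⟨a ^ M, ⟨U.pow_mem haU M, ?_⟩, ?_⟩
  · intro Q hQ
    have h1 := hM (a.g : MvPowerSeries (Fin m) k ≃+* MvPowerSeries (Fin m) k) (hI a haU) Q hQ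
    rw [g_pow]
    have e : ∀ n : ℕ, (((a.g : MvPowerSeries (Fin m) k ≃+* MvPowerSeries (Fin m) k) ^ n : MvPowerSeries (Fin m) k ≃+* MvPowerSeries (Fin m) k) : MvPowerSeries (Fin m) k →+* MvPowerSeries (Fin m) k) =
        ((a.g ^ n : MvPowerSeries (Fin m) k ≃ₐ[k] MvPowerSeries (Fin m) k) : MvPowerSeries (Fin m) k →+* MvPowerSeries (Fin m) k) := by
      intro n
      induction n with
      | zero => rfl
      | succ n ih =>
        rw [pow_succ', pow_succ']
        have := ih
        ext x
        have hx := congrArg (fun f : MvPowerSeries (Fin m) k →+* MvPowerSeries (Fin m) k => f x) this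
        exact congrArg (fun y => MvPowerSeries.coeff _ (a.g y)) hx
    rw [← e M]
    exact h1
  · rw [red_pow, ha, iter_iter hθ.1]

end Pool.Agent.H49.CA
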